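import Mathlib

set_option autoImplicit false

namespace Pool.Agent.Results.MP_96ce97_co.Disproof

open Pointwise Finset

theorem cb (m : ℕ) : (2 * m + 1) * m.centralBinom ^ 2 ≤ 16 ^ m := by
  induction m with
  | zero => simp
  | succ m ih =>
    have h := Nat.succ_mul_centralBinom_succ m
    have : (m + 1) ^ 2 * ((2 * (m + 1) + 1) * (m + 1).centralBinom ^ 2) ≤ (m + 1) ^ 2 * 16 ^ (m + 1) := by
      calc (m + 1) ^ 2 * ((2 * (m + 1) + 1) * (m + 1).centralBinom ^ 2)
          = (2 * m + 3) * ((m + 1) * (m + 1).centralBinom) ^ 2 := by ring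
        _ = (4 * ((2 * m + 3) * (2 * m + 1))) * ((2 * m + 1) * m.centralBinom ^ 2) := by
          rw [h]; ring
        _ ≤ (16 * (m + 1) ^ 2) * 16 ^ m := Nat.mul_le_mul (by nlinarith) ih
        _ = _ := by ring
    exact Nat.le_of_mul_le_mul_left this (by positivity)

theorem cnt (m t : ℕ) (h : 16 * t ^ 2 ≤ 2 * m + 1) (ht : t ≤ m) :
    4 ^ m ≤ 2 * ∑ i ∈ range (m + 1 - t), (2 * m + 1).choose i := by
  have h1 := Nat.sum_range_choose_halfway m
  have h2 : m + 1 = (m + 1 - t) + t := by omega
  rw [h2, sum_range_add] at h1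
  have h3 : ∑ x ∈ range t, (2 * m + 1).choose (m + 1 - t + x) ≤ t * (2 * m.centralBinom) := by
    calc _ ≤ ∑ _x ∈ range t, 2 * m.centralBinom := by
          refine sum_le_sum fun x hx => ?_
          have hx := mem_range.1 hx
          obtain ⟨j, hj⟩ : ∃ j, m + 1 - t + x = j + 1 := ⟨m - t + x, by omega⟩
          rw [hj, Nat.choose_succ_succ', two_mul m.centralBinom]
          exact add_le_add (Nat.choose_le_centralBinom _ _) (Nat.choose_le_centralBinom _ _)
      _ = _ := by simp
  have h4 : 4 * t * m.centralBinom ≤ 4 ^ m := by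
    refine (Nat.pow_le_pow_iff_left (n := 2) (by norm_num)).1 ?_
    calc (4 * t * m.centralBinom) ^ 2 = (16 * t ^ 2) * m.centralBinom ^ 2 := by ring
      _ ≤ (2 * m + 1) * m.centralBinom ^ 2 := Nat.mul_le_mul_right _ h
      _ ≤ 16 ^ m := cb m
      _ = (4 ^ m) ^ 2 := by rw [← pow_mul, mul_comm, pow_mul]; norm_num
  nlinarith

def supp {n : ℕ} (x : Fin n → ZMod 2) : Finset (Fin n) := univ.filter fun i => x i ≠ 0

theorem supp_inj {n : ℕ} : Function.Injective (supp (n := n)) := by
  intro x y h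
  funext i
  have : i ∈ supp x ↔ i ∈ supp y := by rw [h]
  simp only [supp, mem_filter, mem_univ, true_and] at this
  revert this
  generalize x i = a
  generalize y i = b
  revert a b
  decide

theorem supp_surj {n : ℕ} : Function.Surjective (supp (n := n)) := by
  intro s
  refine ⟨fun i => if i ∈ s then 1 else 0, ?_⟩
  ext i
  by_cases h : i ∈ s <;> simp [supp, h]

theorem result : ∃ α : ℝ, 0 < α ∧ ∀ N k : ℝ, ∃ (R : Type) (_ : CommRing R) (_ : Finite R),
    N ≤ Nat.card R ∧ ∃ E : Set R, α * Nat.card R ≤ E.ncard ∧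
      ¬ ∃ R₀ : NonUnitalSubring R, (R₀ : Set R) ⊆ (E - E) * (E - E) ∧
        (Nat.card R : ℝ) / Nat.card R₀ ≤ k := by
  refine ⟨1 / 4, by norm_num, fun N k => ?_⟩
  obtain ⟨t, ht⟩ := exists_nat_gt k
  obtain ⟨N', hN'⟩ := exists_nat_gt N
  set m := 8 * t ^ 2 + t + N' with hm
  have hc : Nat.card (Fin (2 * m + 1) → ZMod 2) = 2 ^ (2 * m + 1) := by simp
  refine ⟨Fin (2 * m + 1) → ZMod 2, inferInstance, inferInstance, ?_,
    {x | (supp x).card < m + 1 - t}, ?_, ?_⟩
  · rw [hc]
    have : N' < 2 ^ (2 * m + 1) := lt_of_le_of_lt (by omega) Nat.lt_two_pow_self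
    have : (N' : ℝ) < ((2 ^ (2 * m + 1) : ℕ) : ℝ) := by exact_mod_cast this
    linarith
  · rw [hc]
    have h1 := cnt m t (by omega) (by omega)
    have h2 : ({x : Fin (2 * m + 1) → ZMod 2 | (supp x).card < m + 1 - t}).ncard =
        ∑ i ∈ range (m + 1 - t), (2 * m + 1).choose i := by
      rw [← Set.ncard_image_of_injective _ supp_inj]
      have : supp '' {x : Fin (2 * m + 1) → ZMod 2 | (supp x).card < m + 1 - t} =
          ((range (m + 1 - t)).biUnion fun i => powersetCard i (univ : Finset (Fin (2 * m + 1))) :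
            Finset _) := by
        ext s
        simp only [Set.mem_image, coe_biUnion, coe_range, Set.mem_iUnion, mem_coe,
          mem_powersetCard, subset_univ, true_and, Set.mem_Iio]
        constructor
        · rintro ⟨x, hx, rfl⟩
          exact ⟨_, hx, rfl⟩
        · rintro ⟨i, hi, rfl⟩
          obtain ⟨x, rfl⟩ := supp_surj s
          exact ⟨x, hi, rfl⟩
      rw [this, Set.ncard_coe_finset, card_biUnion]
      · simp
      · intro i _ j _ hij
        exact pairwise_disjoint_powersetCard _ hij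
    rw [h2]
    have h3 : (4 : ℝ) ^ m ≤ 2 * ((∑ i ∈ range (m + 1 - t), (2 * m + 1).choose i : ℕ) : ℝ) := by
      exact_mod_cast h1
    have h4 : ((2 ^ (2 * m + 1) : ℕ) : ℝ) = 2 * 4 ^ m := by
      push_cast; rw [pow_succ, pow_mul]; ring
    rw [h4]; linarith
  · rintro ⟨R₀, hsub, hk⟩
    obtain ⟨e, he, hmax⟩ := Set.exists_max_image (R₀ : Set (Fin (2 * m + 1) → ZMod 2))
      (fun x => (supp x).card)
      (Set.toFinite _) ⟨0, R₀.zero_mem⟩
    have hle : ∀ x ∈ R₀, supp x ⊆ supp e := by
      intro x hx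
      have h1 : e + x + e * x ∈ R₀ := R₀.add_mem (R₀.add_mem he hx) (R₀.mul_mem he hx)
      have h2 : supp (e + x + e * x) = supp e ∪ supp x := by
        ext i
        simp only [supp, mem_filter, mem_univ, true_and, mem_union, Pi.add_apply, Pi.mul_apply]
        generalize x i = a
        generalize e i = b
        revert a b
        decide
      have h3 := hmax _ h1
      simp only [h2] at h3
      have := eq_of_subset_of_card_le (subset_union_left (s₁ := supp e) (s₂ := supp x)) h3
      rw [this]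
      exact subset_union_right
    obtain ⟨_, ⟨x, hx, y, hy, rfl⟩, b, -, hb⟩ := hsub he
    have h5 : supp e ⊆ supp x ∪ supp y := by
      intro i
      rw [← hb]
      simp only [supp, mem_filter, mem_univ, true_and, mem_union, Pi.sub_apply, Pi.mul_apply]
      exact (by decide : ∀ a c d : ZMod 2, (a - c) * d ≠ 0 → a ≠ 0 ∨ c ≠ 0) _ _ _
    have h6 : (supp e).card + t ≤ 2 * m + 1 := by
      have := (card_le_card h5).trans (card_union_le _ _)
      have hx : (supp x).card < m + 1 - t := hx
      have hy : (supp y).card < m + 1 - t := hy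
      omega
    have h7 : Nat.card R₀ ≤ 2 ^ (supp e).card := by
      rw [← card_powerset, ← Nat.card_eq_finsetCard]
      exact Nat.card_le_card_of_injective
        (fun x : R₀ => (⟨supp x.1, mem_powerset.2 (hle _ x.2)⟩ : (supp e).powerset))
        fun a b h => Subtype.ext (supp_inj (congrArg Subtype.val h))
    have h8 : 0 < Nat.card R₀ := Nat.card_pos
    have h9 : t * Nat.card R₀ ≤ 2 ^ (2 * m + 1) :=
      calc t * Nat.card R₀ ≤ 2 ^ t * 2 ^ (supp e).card :=
            Nat.mul_le_mul Nat.lt_two_pow_self.le h7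
        _ = 2 ^ ((supp e).card + t) := by ring
        _ ≤ _ := Nat.pow_le_pow_right (by norm_num) h6
    rw [hc, div_le_iff₀ (by exact_mod_cast h8)] at hk
    have h10 : (t : ℝ) * Nat.card R₀ ≤ ((2 ^ (2 * m + 1) : ℕ) : ℝ) := by exact_mod_cast h9
    have h11 : (0 : ℝ) < Nat.card R₀ := by exact_mod_cast h8
    nlinarith

end Pool.Agent.Results.MP_96ce97_co.Disproof
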